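import Pool.Agent.P8H44.Pert.Five

/-!
# MP_ab18c1_co: the question for all `k ≥ 5`

An edge-colouring of a complete graph is given by a symmetric function of two vertices whose
values at equal arguments are irrelevant.
-/

namespace Pool.Agent.Results.MP_ab18c1_co.FiveColours

/-- For every `k ≥ 5`, every finite complete graph (vertex type `V`) and every `k`-colouring `c`
of its edges that uses each colour, there is a `c`-free `k`-colouring `χ` of the edges of the
complete graph on `ℕ` such that every locally finite perturbation `χ'` of `χ` contains a copy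
of `c`. -/
theorem result (k : ℕ) (hk : 5 ≤ k) (V : Type) [Fintype V] (c : V → V → Fin k)
    (hc : ∀ u v, c u v = c v u) (hall : ∀ i : Fin k, ∃ u v, u ≠ v ∧ c u v = i) :
    ∃ χ : ℕ → ℕ → Fin k, (∀ m n, χ m n = χ n m) ∧
      (¬ ∃ f : V → ℕ, Function.Injective f ∧ ∀ u v, u ≠ v → χ (f u) (f v) = c u v) ∧
      ∀ χ' : ℕ → ℕ → Fin k, (∀ m n, χ' m n = χ' n m) →
        (∃ m n, m ≠ n ∧ χ' m n ≠ χ m n) →
        (∀ m, {n | m ≠ n ∧ χ' m n ≠ χ m n}.Finite) →
        ∃ f : V → ℕ, Function.Injective f ∧ ∀ u v, u ≠ v → χ' (f u) (f v) = c u v := by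
  obtain ⟨χ, h1, h2, h3⟩ := Pool.Agent.P8H44.Pert.five hk c hc hall
  exact ⟨χ, h1, h2, h3⟩

end Pool.Agent.Results.MP_ab18c1_co.FiveColours
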